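import Mathlib
import Pool.Agent.H805.T5.Sub
import Pool.Agent.H184.T5.AllT

set_option autoImplicit false

/-! In `5 × 5 × 5` tic-tac-toe no opening outside the centre of the cube wins: the
second player has a legal strategy (the first reply is the centre) against which the first player
never owns all cells of a winning line. -/

namespace Pool.Agent.Results.MP_e28b35_co.NonCentreOpening

open Pool.Agent.H805.T5

theorem hT : ∀ p ∈ posT, BP p.1 p.2 := sub_of Pool.Agent.H184.T5.allT (by decide +kernel)

theorem hU : ∀ p ∈ posU, BP p.1 p.2 := sub_of Pool.Agent.H184.T5.allT (by decide +kernel)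

/-- A play is a list of distinct cells; the first player owns the cells at even places. If the
first cell is not the centre and the second player follows `σ`, then `σ` always proposes a free
cell and the first player never owns a whole line. -/
theorem result :
    ∃ σ : List (Fin 3 → Fin 5) → (Fin 3 → Fin 5),
      ∀ l : List (Fin 3 → Fin 5), l.Nodup →
        (∀ c : Fin 3 → Fin 5, l[0]? = some c → c ≠ fun _ => 2) →
        (∀ k : ℕ, Odd k → ∀ c : Fin 3 → Fin 5, l[k]? = some c → c = σ (l.take k)) →
        ((Odd l.length → (∃ c : Fin 3 → Fin 5, c ∉ l) → σ l ∉ l) ∧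
         ¬ ∃ a : Fin 3 → Fin 5, ∃ t : Fin 3 → Fin 3, (∃ j, t j ≠ 0) ∧
             ∀ i : Fin 5, ∃ m : ℕ, Even m ∧
               l[m]? = some (fun j => if t j = 0 then a j else if t j = 1 then i else Fin.rev i)) :=
  non_centre (non_centre_BW hT hU)

end Pool.Agent.Results.MP_e28b35_co.NonCentreOpening
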